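import Pool.Agent.Helper53.KC.Goals

/-! The average number of the available vertices (packet KC-AV). -/

set_option autoImplicit false

namespace Pool.Agent.Helper9.KC

open Finset
open Pool.Agent.Helper53.KC

variable {n : ℕ}

/-- the sets `X - e + f`, `e ∈ C`, `f ∉ X` -/
def BB (C X : Finset (Fin n)) : Finset (Finset (Fin n)) :=
  (C ×ˢ (univ.filter fun f => f ∉ X)).image fun p => sw X p.1 p.2

lemma mem_BB {C X v : Finset (Fin n)} :
    v ∈ BB C X ↔ ∃ e ∈ C, ∃ f, f ∉ X ∧ v = sw X e f := by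
  unfold BB
  simp only [mem_image, mem_product, mem_filter, mem_univ, true_and, Prod.exists]
  constructor
  · rintro ⟨e, f, ⟨he, hf⟩, rfl⟩
    exact ⟨e, he, f, hf, rfl⟩
  · rintro ⟨e, he, f, hf, rfl⟩
    exact ⟨e, f, ⟨he, hf⟩, rfl⟩

lemma mem_DC {r : ℕ} {C X : Finset (Fin n)} : X ∈ DC r C ↔ X.card = r ∧ C ⊆ X := by
  classical
  unfold DC V
  simp [mem_powersetCard]

lemma sw_facts {r : ℕ} {C X : Finset (Fin n)} (hX : X ∈ DC r C) {e f : Fin n} (he : e ∈ C)
    (hf : f ∉ X) : (sw X e f).card = r ∧ C \ sw X e f = {e} ∧ f ∈ sw X e f ∧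
      X = insert e ((sw X e f).erase f) := by
  obtain ⟨hc, hCX⟩ := mem_DC.1 hX
  have heX : e ∈ X := hCX he
  have hfe : f ≠ e := fun h => hf (h ▸ heX)
  have hfe' : f ∉ X.erase e := fun h => hf (mem_of_mem_erase h)
  refine ⟨?_, ?_, ?_, ?_⟩
  · unfold sw
    rw [card_insert_of_notMem hfe', card_erase_of_mem heX, hc]
    have : 0 < X.card := card_pos.2 ⟨e, heX⟩
    omega
  · ext x
    simp only [sw, mem_sdiff, mem_insert, mem_erase, mem_singleton, not_or, not_and]
    constructor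
    · rintro ⟨h1, h2, h3⟩
      by_contra hne
      exact h3 hne (hCX h1)
    · rintro rfl
      exact ⟨he, fun h => hfe h.symm, fun h => absurd rfl h⟩
  · exact mem_insert_self _ _
  · unfold sw
    rw [erase_insert hfe', insert_erase heX]

lemma BB_count {r : ℕ} (C v : Finset (Fin n)) :
    ((DC r C).filter fun X => v ∈ BB C X).card ≤ r := by
  rcases ((DC r C).filter fun X => v ∈ BB C X).eq_empty_or_nonempty with h | ⟨X₀, hX₀⟩
  · rw [h]; simp
  · obtain ⟨hX₀D, hX₀B⟩ := mem_filter.1 hX₀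
    obtain ⟨e₀, he₀, f₀, hf₀, hv⟩ := mem_BB.1 hX₀B
    obtain ⟨h1, h2, h3, h4⟩ := sw_facts hX₀D he₀ hf₀
    rw [← hv] at h1 h2
    have hsub : ((DC r C).filter fun X => v ∈ BB C X) ⊆
        v.image (fun f => insert e₀ (v.erase f)) := by
      intro X hX
      obtain ⟨hXD, hXB⟩ := mem_filter.1 hX
      obtain ⟨e, he, f, hf, hv'⟩ := mem_BB.1 hXB
      obtain ⟨g1, g2, g3, g4⟩ := sw_facts hXD he hf
      rw [← hv'] at g1 g2 g3 g4
      have hee : e = e₀ := by
        have : ({e} : Finset (Fin n)) = {e₀} := by rw [← g2, ← h2]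
        exact singleton_injective this
      rw [mem_image]
      exact ⟨f, g3, by rw [← hee]; exact g4.symm⟩
    calc _ ≤ (v.image (fun f => insert e₀ (v.erase f))).card := card_le_card hsub
      _ ≤ v.card := card_image_le
      _ = r := h1

lemma adj_BB {r : ℕ} {C X Y : Finset (Fin n)} (hX : X ∈ DC r C) (hY : ¬ C ⊆ Y)
    (h : adj X Y) : Y ∈ BB C X := by
  obtain ⟨hc, hCX⟩ := mem_DC.1 hX
  obtain ⟨h1, h2⟩ := h
  have hXY : (X \ Y).card = 1 := by
    have := card_sdiff_add_card_inter X Y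
    omega
  have hYX : (Y \ X).card = 1 := by
    have := card_sdiff_add_card_inter Y X
    rw [inter_comm] at this
    omega
  obtain ⟨e, he⟩ := card_eq_one.1 hXY
  obtain ⟨f, hf⟩ := card_eq_one.1 hYX
  have heX : e ∈ X \ Y := by rw [he]; exact mem_singleton_self e
  have hfY : f ∈ Y \ X := by rw [hf]; exact mem_singleton_self f
  obtain ⟨c, hcC, hcY⟩ := not_subset.1 hY
  have hce : c = e := by
    have : c ∈ X \ Y := mem_sdiff.2 ⟨hCX hcC, hcY⟩
    rw [he] at this
    exact mem_singleton.1 this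
  rw [mem_BB]
  refine ⟨e, hce ▸ hcC, f, (mem_sdiff.1 hfY).2, ?_⟩
  ext x
  simp only [sw, mem_insert, mem_erase]
  constructor
  · intro hx
    by_cases hxX : x ∈ X
    · right
      exact ⟨fun hxe => (mem_sdiff.1 heX).2 (hxe ▸ hx), hxX⟩
    · left
      have : x ∈ Y \ X := mem_sdiff.2 ⟨hx, hxX⟩
      rw [hf] at this
      exact mem_singleton.1 this
  · rintro (rfl | ⟨hxe, hxX⟩)
    · exact (mem_sdiff.1 hfY).1
    · by_contra hxY
      have : x ∈ X \ Y := mem_sdiff.2 ⟨hxX, hxY⟩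
      rw [he] at this
      exact hxe (mem_singleton.1 this)

/-- counting through fibres -/
lemma fib_count {α : Type} [DecidableEq α] (I : Finset (Finset α)) (B : Finset α)
    (hI : ∀ S ∈ I, S \ B ∈ I) :
    ((I.filter fun S => Disjoint S B).card : ℝ) =
      ∑ S ∈ I, ((I.filter fun S' => S' \ B = S \ B).card : ℝ)⁻¹ := by
  have hmaps : ∀ S ∈ I, S \ B ∈ I.filter fun S => Disjoint S B := fun S hS =>
    mem_filter.2 ⟨hI S hS, sdiff_disjoint⟩
  rw [← sum_fiberwise_of_maps_to hmaps, card_eq_sum_ones, Nat.cast_sum]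
  apply sum_congr rfl
  intro T hT
  obtain ⟨hTI, hTd⟩ := mem_filter.1 hT
  have hTT : T \ B = T := sdiff_eq_self_of_disjoint hTd
  have h1 : ∀ S ∈ I.filter (fun S => S \ B = T),
      ((I.filter fun S' => S' \ B = S \ B).card : ℝ)⁻¹ =
        ((I.filter fun S' => S' \ B = T).card : ℝ)⁻¹ := by
    intro S hS
    rw [(mem_filter.1 hS).2]
  rw [sum_congr rfl h1, sum_const, nsmul_eq_mul, Nat.cast_one, mul_inv_cancel₀]
  have : T ∈ I.filter fun S' => S' \ B = T := mem_filter.2 ⟨hTI, hTT⟩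
  exact_mod_cast (card_pos.2 ⟨T, this⟩).ne'

/-- the tangent line of `2^(-x)` -/
lemma tangent (x b : ℝ) : (2 : ℝ) ^ (-b) * (1 - (x - b) * Real.log 2) ≤ (2 : ℝ) ^ (-x) := by
  have h1 : (2 : ℝ) ^ (-x) = (2 : ℝ) ^ (-b) * (2 : ℝ) ^ (b - x) := by
    rw [← Real.rpow_add (by norm_num)]
    congr 1
    ring
  rw [h1]
  apply mul_le_mul_of_nonneg_left _ (by positivity)
  rw [Real.rpow_def_of_pos (by norm_num)]
  have := Real.add_one_le_exp (Real.log 2 * (b - x))
  linarith

theorem av (hENT : EntStmt) : AvStmt := by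
  classical
  intro n r C b hne hb
  unfold istab at hb ⊢
  set I := ((V n r) \ (DC r C)).powerset.filter Stb with hI
  have hIne : I.Nonempty := ⟨∅, by
    rw [hI, mem_filter]
    exact ⟨by simp, fun X hX => by simp at hX⟩⟩
  have hdown : ∀ X, ∀ S ∈ I, S \ BB C X ∈ I := by
    intro X S hS
    rw [hI, mem_filter, mem_powerset] at hS ⊢
    exact ⟨sdiff_subset.trans hS.1, fun Y hY Z hZ =>
      hS.2 Y (mem_sdiff.1 hY).1 Z (mem_sdiff.1 hZ).1⟩
  have hent := hENT (Finset (Fin n)) (Finset (Fin n)) I (DC r C) (fun X => BB C X) r hIne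
    (fun v => BB_count C v)
  -- the sum of the inverses
  have h1 : ∀ X ∈ DC r C, ((I.filter fun S => Disjoint S (BB C X)).card : ℝ) =
      ∑ S ∈ I, (2 : ℝ) ^
        (-Real.logb 2 ((I.filter fun S' => S' \ BB C X = S \ BB C X).card : ℝ)) := by
    intro X _
    rw [fib_count I (BB C X) (hdown X)]
    apply sum_congr rfl
    intro S hS
    have hmem : S ∈ I.filter fun S' => S' \ BB C X = S \ BB C X := mem_filter.2 ⟨hS, rfl⟩
    have hpos : (0 : ℝ) < ((I.filter fun S' => S' \ BB C X = S \ BB C X).card : ℝ) := by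
      exact_mod_cast card_pos.2 ⟨S, hmem⟩
    rw [Real.rpow_neg (by norm_num), Real.rpow_logb (by norm_num) (by norm_num) hpos]
  have h2 : (I.card : ℝ) * (DC r C).card * (2 : ℝ) ^ (-b) ≤
      ∑ X ∈ DC r C, ((I.filter fun S => Disjoint S (BB C X)).card : ℝ) := by
    rw [sum_congr rfl h1]
    have h3 : ∑ X ∈ DC r C, ∑ S ∈ I, (2 : ℝ) ^ (-b) * (1 - (Real.logb 2
        ((I.filter fun S' => S' \ BB C X = S \ BB C X).card : ℝ) - b) * Real.log 2) ≤
        ∑ X ∈ DC r C, ∑ S ∈ I, (2 : ℝ) ^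
        (-Real.logb 2 ((I.filter fun S' => S' \ BB C X = S \ BB C X).card : ℝ)) :=
      sum_le_sum fun X _ => sum_le_sum fun S _ => tangent _ _
    refine le_trans ?_ h3
    have h4 : ∑ X ∈ DC r C, ∑ S ∈ I, (2 : ℝ) ^ (-b) * (1 - (Real.logb 2
        ((I.filter fun S' => S' \ BB C X = S \ BB C X).card : ℝ) - b) * Real.log 2) =
        (2 : ℝ) ^ (-b) * ((DC r C).card * I.card * (1 + b * Real.log 2) -
          Real.log 2 * ∑ X ∈ DC r C, ∑ S ∈ I, Real.logb 2
            ((I.filter fun S' => S' \ BB C X = S \ BB C X).card : ℝ)) := by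
      have e1 : ∀ X S : _, (2 : ℝ) ^ (-b) * (1 - (Real.logb 2
        ((I.filter fun S' => S' \ BB C X = S \ BB C X).card : ℝ) - b) * Real.log 2) =
        (2 : ℝ) ^ (-b) * (1 + b * Real.log 2) - (2 : ℝ) ^ (-b) * Real.log 2 * Real.logb 2
            ((I.filter fun S' => S' \ BB C X = S \ BB C X).card : ℝ) := by
        intro X S; ring
      simp only [e1, sum_sub_distrib, sum_const, nsmul_eq_mul, ← mul_sum]
      ring
    rw [h4]
    have hl2 : 0 < Real.log 2 := Real.log_pos (by norm_num)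
    have hIc : (0 : ℝ) ≤ I.card := Nat.cast_nonneg _
    have h5 : ∑ X ∈ DC r C, ∑ S ∈ I, Real.logb 2
            ((I.filter fun S' => S' \ BB C X = S \ BB C X).card : ℝ) ≤
          I.card * (b * (DC r C).card) := by
      refine hent.trans ?_
      have := mul_le_mul_of_nonneg_left hb hIc
      linarith
    have h6 := mul_le_mul_of_nonneg_left h5 hl2.le
    have h7 : (I.card : ℝ) * (DC r C).card ≤ (DC r C).card * I.card * (1 + b * Real.log 2) -
          Real.log 2 * ∑ X ∈ DC r C, ∑ S ∈ I, Real.logb 2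
            ((I.filter fun S' => S' \ BB C X = S \ BB C X).card : ℝ) := by
      linarith
    have h8 : (0 : ℝ) ≤ (2 : ℝ) ^ (-b) := by positivity
    have := mul_le_mul_of_nonneg_left h7 h8
    linarith
  refine h2.trans ?_
  -- double counting
  have e3 : ∑ X ∈ DC r C, ((I.filter fun S => Disjoint S (BB C X)).card : ℝ) =
      ∑ X ∈ DC r C, ∑ S ∈ I, if Disjoint S (BB C X) then (1 : ℝ) else 0 := by
    apply sum_congr rfl
    intro X _
    rw [card_eq_sum_ones, Nat.cast_sum, sum_filter]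
    simp
  have e4 : ∑ S ∈ I, (((DC r C).filter fun X => ∀ Y ∈ S, ¬ adj X Y).card : ℝ) =
      ∑ S ∈ I, ∑ X ∈ DC r C, if (∀ Y ∈ S, ¬ adj X Y) then (1 : ℝ) else 0 := by
    apply sum_congr rfl
    intro X _
    rw [card_eq_sum_ones, Nat.cast_sum, sum_filter]
    simp
  rw [e3, sum_comm]
  refine le_of_le_of_eq ?_ e4.symm
  apply sum_le_sum
  intro S hS
  apply sum_le_sum
  intro X hX
  by_cases hd : Disjoint S (BB C X)
  · rw [if_pos hd, if_pos]
    intro Y hY hadj
    rw [hI, mem_filter, mem_powerset] at hS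
    have hYV := mem_sdiff.1 (hS.1 hY)
    have hCY : ¬ C ⊆ Y := by
      intro hCY
      apply hYV.2
      rw [mem_DC]
      exact ⟨(mem_powersetCard.1 hYV.1).2, hCY⟩
    exact (disjoint_left.1 hd) hY (adj_BB hX hCY hadj)
  · rw [if_neg hd]
    split_ifs <;> norm_num

end Pool.Agent.Helper9.KC
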